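import Pool.Agent.H29.CM.BnB
import Pool.Agent.H29.CM.CbD
import Pool.Agent.H24.RR.Net

/-!
# MP_54820f_ag : Brill-Noether loci contained in loci of nets, also below Castelnuovo's number

Let `r ≥ 3`, `2 r ≤ d ≤ g - 1` and `d - 2r + 4 ≤ e < d - 2r + 2 + [(r+3)/2]`, so that `(g,r,d,e)` is
in the range of Q1.  The Brill-Noether locus of curves of genus `g` with a `g^r_d` is nonempty and
contained in the locus of curves with a `g^2_e` if `g > π(d,r)` (Castelnuovo's number) and also if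
`g ≥ j d - S(r,j) + 3` for some `j ≥ 2`, `(j+1)(r-1) < d`, with `d ≤ (j+2)(r-1)` or
`g < S(r,j) + e`, where `S(r,j) = (r-1) j (j+1) / 2 + j`.  The second range goes below Castelnuovo's
number and includes loci containing smooth curves embedded by the `g^r_d`.
-/

namespace Pool.Agent.Results.MP_54820f_ag.NetsBelowCastelnuovo

open Pool.H29.BN Pool.H29.CB Pool.H24.RR

/-- A smooth irreducible projective curve over `ℂ`, given by its function field. -/
structure Curve where
  /-- the function field -/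
  F : Type
  [fld : Field F]
  [alg : Algebra ℂ F]
  ff : IsFF F

attribute [instance] Curve.fld Curve.alg

/-- The Brill-Noether locus: curves of genus `g` with a `g^r_d`. -/
def BN (g r d : ℕ) : Set Curve := {C | IsGenus C.F g ∧ HasGrd C.F r d}

/-- The Brill-Noether number. -/
def rho (g r d : ℤ) : ℤ := g - (r + 1) * (g - d + r)

/-- The conditions of Q1 on `g, r, d, e`. -/
def Cond (g r d e : ℕ) : Prop :=
  3 ≤ r ∧ (d : ℤ) ≤ g - 1 ∧ (e : ℤ) ≤ g - 1 ∧ rho g r d < 0 ∧ rho g 2 e < 0 ∧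
    (e : ℤ) < d - 2 * r + 2 + ((r + 3) / 2 : ℕ)

/-- `(g,r,d,e)` satisfies the conditions of Q1, the locus of curves of genus `g` with a `g^r_d`
is not empty, and every such curve has a `g^2_e`. -/
def Fails (g r d e : ℕ) : Prop :=
  Cond g r d e ∧ (BN g r d).Nonempty ∧ BN g r d ⊆ BN g 2 e

/-- `S(r,j) = (r-1) j (j+1) / 2 + j` -/
def S (r j : ℕ) : ℕ := (r - 1) * (j * (j + 1) / 2) + j

theorem S_eq (r j : ℕ) : S r j = SS r j := by
  have h1 := SS_two r j
  have h2 : 2 * (j * (j + 1) / 2) = j * (j + 1) :=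
    Nat.mul_div_cancel' (Nat.even_mul_succ_self j).two_dvd
  have h3 : 2 * S r j = j * (j + 1) * (r - 1) + 2 * j := by
    unfold S
    calc 2 * ((r - 1) * (j * (j + 1) / 2) + j)
        = (r - 1) * (2 * (j * (j + 1) / 2)) + 2 * j := by ring
      _ = j * (j + 1) * (r - 1) + 2 * j := by rw [h2]; ring
  omega

/-- the conditions of Q1 hold if `2 d + 2 ≤ g + 3 r` -/
theorem cond1 {g r d e : ℕ} (hr : 3 ≤ r) (hd : 2 * r ≤ d) (hdg : d < g)
    (h1 : 2 * d + 1 < g + 3 * r) (he' : e + 2 * r < d + 2 + (r + 3) / 2) : Cond g r d e := by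
  have h2 : (2 * d + 1 : ℤ) < g + 3 * r := by exact_mod_cast h1
  have h4 : (2 * r : ℤ) ≤ d := by exact_mod_cast hd
  have h5 : (3 : ℤ) ≤ r := by exact_mod_cast hr
  have h6 : (d : ℤ) < g := by exact_mod_cast hdg
  refine ⟨hr, by linarith, by omega, ?_, ?_, by omega⟩
  · unfold rho
    nlinarith
  · unfold rho
    omega

theorem nonempty {r d : ℕ} (g : ℕ) (hd : 2 * r ≤ d) : (BN g r d).Nonempty := by
  obtain ⟨F, i1, i2, hF, h1, h2⟩ := exists_curve g r d hd
  exact ⟨⟨F, hF⟩, h1, h2⟩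

/-- `j d - S(r,j)` is monotone -/
theorem win_mono {r d : ℕ} (j : ℕ) (hj : 2 ≤ j) (hjd : (j + 1) * (r - 1) < d) :
    2 * d + SS r j ≤ j * d + SS r 2 := by
  induction j, hj using Nat.le_induction with
  | base => exact le_rfl
  | succ j hj ih =>
    have h1 : (j + 1) * (r - 1) ≤ (j + 1 + 1) * (r - 1) := Nat.mul_le_mul_right _ (by omega)
    have h2 := ih (by omega)
    rw [SS_succ]
    have h3 : (j + 1) * d = j * d + d := by ring
    omega

theorem SS_2 (r : ℕ) : SS r 2 = 3 * (r - 1) + 2 := by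
  have := SS_two r 2
  omega

theorem win_two {r d g j : ℕ} (hr : 3 ≤ r) (hj : 2 ≤ j) (hjd : (j + 1) * (r - 1) < d)
    (hw : j * d + 3 ≤ g + SS r j) : 2 * d + 1 < g + 3 * r := by
  have h1 := win_mono j hj hjd
  rw [SS_2] at h1
  omega

theorem pt_of {F : Type} [Field F] [Algebra ℂ F] {D : Dv F} {d : ℕ} (hD : deg D = d)
    (hd : 1 ≤ d) : Nonempty (Pt F) := by
  by_contra hne
  rw [not_nonempty_iff] at hne
  have : D = 0 := Subsingleton.elim _ _
  rw [this] at hD
  have h0 : deg (0 : Dv F) = 0 := by simp [deg]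
  rw [h0] at hD
  omega

theorem sub0 {r d g e : ℕ} (j : ℕ) (hr : 3 ≤ r) (hd : 2 * r ≤ d) (he : d + 4 ≤ e + 2 * r)
    (hj : 2 ≤ j) (hjd : (j + 1) * (r - 1) < d) (hw : j * d + 3 ≤ g + SS r j)
    (h : d ≤ (j + 2) * (r - 1) ∨ g < SS r j + e) : BN g r d ⊆ BN g 2 e := by
  rintro C ⟨h1, D, hD, hell⟩
  obtain ⟨P0⟩ := pt_of hD (by omega)
  refine ⟨h1, ?_⟩
  have h3 := nets C.ff h1 P0 hr hd hD hell hj hjd hw
  rcases h with h | h
  · exact NetLe.grd h1 P0 ((h3.2 h).mono (by omega))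
  · exact NetLe.grd h1 P0 (h3.1.mono (max_le (by omega) (by omega)))

/-- Let `r ≥ 3`, `2 r ≤ d < g` and `d - 2 r + 4 ≤ e < d - 2 r + 2 + [(r + 3) / 2]`.  If `g` exceeds
Castelnuovo's number or lies in one of the windows, then Q1 fails for `(g, r, d, e)`. -/
theorem result (g r d e : ℕ) (hr : 3 ≤ r) (hd : 2 * r ≤ d) (hdg : d < g)
    (he : d + 4 ≤ e + 2 * r) (he' : e + 2 * r < d + 2 + (r + 3) / 2)
    (h : castel d r < g ∨ ∃ j : ℕ, 2 ≤ j ∧ (j + 1) * (r - 1) < d ∧ j * d + 3 ≤ g + S r j ∧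
      (d ≤ (j + 2) * (r - 1) ∨ g < S r j + e)) :
    Fails g r d e := by
  have key : 2 * d + 1 < g + 3 * r := by
    rcases h with h | ⟨j, hj, hjd, hw, _⟩
    · have h0 := castel_ge hr hd
      omega
    · rw [S_eq] at hw
      exact win_two hr hj hjd hw
  refine ⟨cond1 hr hd hdg key he', nonempty g hd, ?_⟩
  rcases h with h | ⟨j, hj, hjd, hw, h⟩
  · rintro C ⟨h1, h2⟩
    refine ⟨h1, ?_⟩
    obtain ⟨D, hD, hell⟩ := contain2 C.ff h1 hr hd h h2
    obtain ⟨P0⟩ := pt_of hD (by omega)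
    exact NetLe.grd h1 P0 ⟨D, by rw [hD]; omega, hell⟩
  · rw [S_eq] at hw h
    exact sub0 j hr hd he hj hjd hw h

/-! ### The windows reach below Castelnuovo's number -/

theorem castel_le {r d : ℕ} (j : ℕ) (hr : 3 ≤ r) (hjd : (j + 1) * (r - 1) < d) :
    j * d + (d - 1 - (j + 1) * (r - 1)) ≤ castel d r + SS r j := by
  have h1 : ∑ k ∈ Finset.Icc 1 (j + 1), (d - k * (r - 1) - 1) ≤ castel d r := by
    unfold castel
    apply Finset.sum_le_sum_of_subset
    apply Finset.Icc_subset_Icc le_rfl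
    have : (j + 1) * 1 ≤ (j + 1) * (r - 1) := Nat.mul_le_mul_left _ (by omega)
    omega
  have h2 : ∀ i, i ≤ j → ∑ k ∈ Finset.Icc 1 i, (d - k * (r - 1) - 1) + SS r i = i * d := by
    intro i
    induction i with
    | zero => intro _; simp [SS]
    | succ i ih =>
      intro hi
      have h3 := ih (by omega)
      rw [SS_succ, ← Finset.insert_Icc_right_eq_Icc_add_one (by omega),
        Finset.sum_insert (by simp)]
      have h4 : (i + 1) * (r - 1) ≤ (j + 1) * (r - 1) := Nat.mul_le_mul_right _ (by omega)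
      have h5 : (i + 1) * d = i * d + d := by ring
      omega
  have h3 := h2 j le_rfl
  rw [← Finset.insert_Icc_right_eq_Icc_add_one (by omega), Finset.sum_insert (by simp)] at h1
  omega

theorem castel_small {r d : ℕ} (hr : 3 ≤ r) (hd : 2 * r ≤ d) (h3 : d ≤ 3 * (r - 1)) :
    castel d r < d := by
  have h1 : castel d r = ∑ k ∈ Finset.Icc 1 2, (d - k * (r - 1) - 1) := by
    unfold castel
    symm
    apply Finset.sum_subset (Finset.Icc_subset_Icc le_rfl (by omega))
    intro k _ hk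
    rw [Finset.mem_Icc] at hk
    by_cases hk1 : 1 ≤ k
    · have h4 : 3 ≤ k := by omega
      have h5 : 3 * (r - 1) ≤ k * (r - 1) := Nat.mul_le_mul_right _ h4
      omega
    · exact absurd (by assumption : k ∈ Finset.Icc 1 d) (by
        rw [Finset.mem_Icc]
        omega)
  have h2 : Finset.Icc 1 2 = ({1, 2} : Finset ℕ) := by decide
  rw [h1, h2, Finset.sum_insert (by decide), Finset.sum_singleton]
  omega

/-- The range `g ≥ π(d,r) - ε + 3`, `ε = (d-1) mod (r-1)`: it contains the genus `π(d,r)` of the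
extremal curves if `ε ≥ 3`. -/
theorem result_castelnuovo (g r d e : ℕ) (hr : 3 ≤ r) (hd : 2 * r ≤ d) (hdg : d < g)
    (he : d + 4 ≤ e + 2 * r) (he' : e + 2 * r < d + 2 + (r + 3) / 2)
    (h : castel d r + 3 ≤ g + (d - 1) % (r - 1)) : Fails g r d e := by
  apply result g r d e hr hd hdg he he'
  by_cases h3 : d ≤ 3 * (r - 1)
  · exact Or.inl ((castel_small hr hd h3).trans hdg)
  · push Not at h3
    have hdm := Nat.div_add_mod (d - 1) (r - 1)
    have hml := Nat.mod_lt (d - 1) (show 0 < r - 1 by omega)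
    have hj3 : 3 ≤ (d - 1) / (r - 1) := by
      rw [Nat.le_div_iff_mul_le (by omega)]
      omega
    obtain ⟨j, hj⟩ : ∃ j, (d - 1) / (r - 1) = j + 1 := ⟨(d - 1) / (r - 1) - 1, by omega⟩
    have hj2 : 2 ≤ j := by omega
    rw [hj, mul_comm] at hdm
    have hjd : (j + 1) * (r - 1) < d := by omega
    have h5 : (j + 2) * (r - 1) = (j + 1) * (r - 1) + (r - 1) := by ring
    have h4 := castel_le j hr hjd
    refine Or.inr ⟨j, hj2, hjd, ?_, Or.inl (by omega)⟩
    rw [S_eq]
    omega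

/-- The case `r = 3`, `d = 2 a`, `g = a² - 2 a`, `e = d - 2` (for instance smooth curves of bidegree
`(a + 1, a - 1)` on a quadric surface). -/
theorem result_quadric (a : ℕ) (ha : 5 ≤ a) : Fails (a * a - 2 * a) 3 (2 * a) (2 * a - 2) := by
  obtain ⟨b, rfl⟩ : ∃ b, a = b + 3 := ⟨a - 3, by omega⟩
  have h1 : (b + 3) * (b + 3) = b * b + 6 * b + 9 := by ring
  have h2 : 2 * b ≤ b * b := Nat.mul_le_mul_right b (by omega)
  have hS : S 3 b = b * b + 2 * b := by
    rw [S_eq]
    have h3 := SS_two 3 b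
    have h4 : b * (b + 1) * (3 - 1) + 2 * b = 2 * (b * b + 2 * b) := by
      have : 3 - 1 = 2 := rfl
      rw [this]
      ring
    omega
  have h5 : b * (2 * (b + 3)) = 2 * (b * b) + 6 * b := by ring
  rw [h1]
  apply result _ _ _ _ le_rfl (by omega) (by omega) (by omega) (by omega)
  refine Or.inr ⟨b, by omega, by omega, ?_, Or.inr ?_⟩
  · rw [hS, h5]
    omega
  · rw [hS]
    omega

/-- The case `d = 3 r + 1 = g - 5`: here `g = π(d,r)` is the genus of Castelnuovo's extremal curves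
of degree `d` in `P^r`. -/
theorem result_extremal (r : ℕ) (hr : 5 ≤ r) : Fails (3 * r + 6) r (3 * r + 1) (r + 5) := by
  apply result _ _ _ _ (by omega) (by omega) (by omega) (by omega) (by omega)
  refine Or.inr ⟨2, le_rfl, by omega, ?_, Or.inl (by omega)⟩
  rw [S_eq, SS_2]
  omega

/-- The case `r = 2 t + 1`, `d = 9 t + 1`, `g = 12 t + 3`, `e` the largest value in Q1: here
`π(d,r) = 16 t`. -/
theorem result_three_quarters (t : ℕ) (ht : 1 ≤ t) :
    Fails (12 * t + 3) (2 * t + 1) (9 * t + 1) (6 * t + 2) := by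
  apply result _ _ _ _ (by omega) (by omega) (by omega) (by omega) (by omega)
  refine Or.inr ⟨2, le_rfl, by omega, ?_, Or.inr ?_⟩
  · rw [S_eq, SS_2]
    omega
  · rw [S_eq, SS_2]
    omega

end Pool.Agent.Results.MP_54820f_ag.NetsBelowCastelnuovo
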